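import Pool.Agent.D0H83.AC.Stm4
import Pool.Agent.D0H8.AC.TorA

set_option autoImplicit false

/-! Project AC, module E9 CYC. -/

namespace Pool.Agent.D0H82.AC

open Finset Matrix Pool.Agent.Q181.TG Pool.Agent.D0H83.AC

theorem val_add_one_int (N : ℕ) [NeZero N] (a : ZMod N) :
    ((a + 1).val : ℤ) = a.val + 1 - (if a = -1 then (N : ℤ) else 0) := by
  have hN : 0 < N := Nat.pos_of_ne_zero (NeZero.ne N)
  by_cases h : a = -1
  · subst h
    obtain ⟨n, rfl⟩ : ∃ n, N = n + 1 := ⟨N - 1, by omega⟩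
    rw [if_pos rfl, neg_add_cancel, ZMod.val_zero]
    have := ZMod.val_neg_one n
    rw [Nat.succ_eq_add_one] at this
    rw [this]
    push_cast
    ring
  · rw [if_neg h]
    have h1 : a.val + 1 ≠ N := by
      intro h2
      apply h
      have h3 : ((a.val + 1 : ℕ) : ZMod N) = 0 := by rw [h2, ZMod.natCast_self]
      push_cast at h3
      rw [ZMod.natCast_zmod_val] at h3
      exact eq_neg_of_add_eq_zero_left h3
    have h2 : a.val < N := ZMod.val_lt a
    have h3 : 1 < N := by omega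
    have : Fact (1 < N) := ⟨h3⟩
    rw [ZMod.val_add_of_lt (by rw [ZMod.val_one]; omega), ZMod.val_one]
    push_cast
    ring

theorem val_second (N : ℕ) [NeZero N] (a : ZMod N) :
    2 * (a.val : ℤ) - (a + 1).val - (a - 1).val =
      N * ((if a = -1 then 1 else 0) - (if a = 0 then 1 else 0)) := by
  have h1 := val_add_one_int N a
  have h2 := val_add_one_int N (a - 1)
  rw [sub_add_cancel] at h2
  have h3 : (a - 1 = -1) ↔ a = 0 := by
    constructor
    · intro h
      have := congrArg (· + 1) h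
      simpa using this
    · rintro rfl; simp
  simp only [h3] at h2
  rw [h1]
  have h4 : ((a - 1).val : ℤ) = a.val - 1 + (if a = 0 then (N : ℤ) else 0) := by linarith
  rw [h4]
  split_ifs <;> ring

/-- the residue of an element of the quotient -/
noncomputable def rs (N : ℕ) : (Multiplicative ℤ ⧸ sbg N) →* Multiplicative (ZMod N) :=
  QuotientGroup.lift (sbg N) (AddMonoidHom.toMultiplicative (Int.castAddHom (ZMod N))) (by
    intro x hx
    obtain ⟨k, rfl⟩ := Subgroup.mem_zpowers_iff.1 hx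
    rw [MonoidHom.mem_ker, map_zpow]
    have : (AddMonoidHom.toMultiplicative (Int.castAddHom (ZMod N))) (Multiplicative.ofAdd (N : ℤ)) = 1 := by
      change Multiplicative.ofAdd (((N : ℤ) : ZMod N)) = 1
      simp
    rw [this, _root_.one_zpow])

theorem rs_mk (N : ℕ) (g : Multiplicative ℤ) :
    (rs N (QuotientGroup.mk g)).toAdd = ((g.toAdd : ℤ) : ZMod N) := rfl

theorem rs_inj (N : ℕ) : Function.Injective (fun x => (rs N x).toAdd) := by
  intro x y h
  induction x using QuotientGroup.induction_on with | H x =>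
  induction y using QuotientGroup.induction_on with | H y =>
  simp only [rs_mk] at h
  rw [QuotientGroup.eq]
  have h1 : ((N : ℤ)) ∣ (y.toAdd - x.toAdd) := by
    rw [← ZMod.intCast_zmod_eq_zero_iff_dvd] at *
    push_cast
    rw [h, sub_self]
  obtain ⟨k, hk⟩ := h1
  rw [sbg, Subgroup.mem_zpowers_iff]
  refine ⟨k, ?_⟩
  apply Multiplicative.toAdd.injective
  rw [toAdd_zpow, toAdd_ofAdd, toAdd_mul, toAdd_inv, smul_eq_mul]
  linarith

theorem rs_surj (N : ℕ) : Function.Surjective (fun x => (rs N x).toAdd) := by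
  intro z
  obtain ⟨k, rfl⟩ := ZMod.intCast_surjective z
  exact ⟨QuotientGroup.mk (Multiplicative.ofAdd k), rfl⟩

/-- the quotient is `ZMod N` -/
noncomputable def ee (N : ℕ) : (Multiplicative ℤ ⧸ sbg N) ≃ ZMod N :=
  Equiv.ofBijective (fun x => (rs N x).toAdd) ⟨rs_inj N, rs_surj N⟩

theorem ee_smul (N : ℕ) (g : Multiplicative ℤ) (x : Multiplicative ℤ ⧸ sbg N) :
    ee N (g • x) = ((g.toAdd : ℤ) : ZMod N) + ee N x := by
  induction x using QuotientGroup.induction_on with | H x =>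
  change (((g * x).toAdd : ℤ) : ZMod N) = ((g.toAdd : ℤ) : ZMod N) + ((x.toAdd : ℤ) : ZMod N)
  rw [toAdd_mul]
  push_cast
  ring

open Classical in
theorem reg_cyc (X : Type) [MulAction (Multiplicative ℤ) X] (p q : X × Fin 1) :
    reg X cyc p q = (if q.1 = p.1 then 2 else 0) - (if Multiplicative.ofAdd (1 : ℤ) • q.1 = p.1 then 1 else 0) -
      (if (Multiplicative.ofAdd (1 : ℤ))⁻¹ • q.1 = p.1 then 1 else 0) := by
  unfold reg cyc
  rw [Matrix.of_apply, ← one_add_one_eq_two]
  have h : ((1 + 1 : MonoidAlgebra ℤ (Multiplicative ℤ)) - MonoidAlgebra.single (Multiplicative.ofAdd (1 : ℤ)) 1 -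
      MonoidAlgebra.single (Multiplicative.ofAdd (1 : ℤ))⁻¹ 1).coeff =
      Finsupp.single 1 2 - Finsupp.single (Multiplicative.ofAdd (1 : ℤ)) 1 -
        Finsupp.single (Multiplicative.ofAdd (1 : ℤ))⁻¹ 1 := by
    rw [MonoidAlgebra.coeff_sub, MonoidAlgebra.coeff_sub, MonoidAlgebra.coeff_add, MonoidAlgebra.coeff_single,
      MonoidAlgebra.coeff_single, MonoidAlgebra.one_def, MonoidAlgebra.coeff_single, ← Finsupp.single_add]
    rfl
  rw [h]
  have hz : ∀ (a : Multiplicative ℤ) (b c : ℤ), (if a • q.1 = p.1 then b - c else 0) =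
      (if a • q.1 = p.1 then b else 0) - (if a • q.1 = p.1 then c else 0) := by
    intro a b c
    split_ifs <;> ring
  rw [Finsupp.sum_sub_index hz, Finsupp.sum_sub_index hz, Finsupp.sum_single_index (by simp),
    Finsupp.sum_single_index (by simp), Finsupp.sum_single_index (by simp), one_smul]

theorem ball_le (n : ℕ) (g : Multiplicative ℤ) (hg : g ∈ ball {Multiplicative.ofAdd (1 : ℤ)} n) :
    |g.toAdd| ≤ n := by
  obtain ⟨l, hl, hs, rfl⟩ := hg
  have h1 : ∀ l : List (Multiplicative ℤ), (∀ s ∈ l, s ∈ ({Multiplicative.ofAdd (1 : ℤ)} : Set _) ∨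
      s⁻¹ ∈ ({Multiplicative.ofAdd (1 : ℤ)} : Set _)) → |l.prod.toAdd| ≤ (l.length : ℤ) := by
    intro l
    induction l with
    | nil => intro _; simp
    | cons a l ih =>
      intro hs
      have h2 := ih fun s hs' => hs s (List.mem_cons_of_mem _ hs')
      have h3 : |a.toAdd| = 1 := by
        rcases hs a List.mem_cons_self with h | h
        · rw [Set.mem_singleton_iff] at h
          rw [h, toAdd_ofAdd, abs_one]
        · rw [Set.mem_singleton_iff] at h
          have h4 : a = (Multiplicative.ofAdd (1 : ℤ))⁻¹ := by rw [← h, inv_inv]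
          rw [h4, toAdd_inv, toAdd_ofAdd, abs_neg, abs_one]
      rw [List.prod_cons, toAdd_mul, List.length_cons]
      calc |a.toAdd + l.prod.toAdd| ≤ |a.toAdd| + |l.prod.toAdd| := abs_add_le _ _
        _ ≤ 1 + l.length := by rw [h3]; linarith
        _ = ((l.length + 1 : ℕ) : ℤ) := by push_cast; ring
  exact (h1 l hs).trans (by exact_mod_cast hl)

/-- the values -/
noncomputable def vl (N : ℕ) (p : (Multiplicative ℤ ⧸ sbg N) × Fin 1) : ℤ := ((ee N p.1).val : ℤ)

/-- the functional -/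
noncomputable def phi (N : ℕ) [Fintype (Multiplicative ℤ ⧸ sbg N)] :
    ((Multiplicative ℤ ⧸ sbg N) × Fin 1 → ℤ) →ₗ[ℤ] ZMod N where
  toFun v := ∑ p, (v p : ZMod N) * ee N p.1
  map_add' v w := by
    rw [← Finset.sum_add_distrib]
    refine Finset.sum_congr rfl fun p _ => ?_
    rw [Pi.add_apply]
    push_cast
    ring
  map_smul' c v := by
    rw [Finset.smul_sum]
    refine Finset.sum_congr rfl fun p _ => ?_
    simp only [Pi.smul_apply, smul_eq_mul, RingHom.id_apply, zsmul_eq_mul]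
    push_cast
    ring

theorem phi_row (N : ℕ) [Fintype (Multiplicative ℤ ⧸ sbg N)] (p : (Multiplicative ℤ ⧸ sbg N) × Fin 1) :
    phi N (reg (Multiplicative ℤ ⧸ sbg N) cyc p) = 0 := by
  classical
  change ∑ q, ((reg (Multiplicative ℤ ⧸ sbg N) cyc p q : ℤ) : ZMod N) * ee N q.1 = 0
  have h1 : ∀ q : (Multiplicative ℤ ⧸ sbg N) × Fin 1,
      ((reg (Multiplicative ℤ ⧸ sbg N) cyc p q : ℤ) : ZMod N) * ee N q.1 =
      (if q.1 = p.1 then 2 * ee N q.1 else 0) -
        (if q.1 = (Multiplicative.ofAdd (1 : ℤ))⁻¹ • p.1 then ee N q.1 else 0) -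
        (if q.1 = Multiplicative.ofAdd (1 : ℤ) • p.1 then ee N q.1 else 0) := by
    intro q
    rw [reg_cyc]
    have e1 : (Multiplicative.ofAdd (1 : ℤ) • q.1 = p.1) ↔ (q.1 = (Multiplicative.ofAdd (1 : ℤ))⁻¹ • p.1) :=
      smul_eq_iff_eq_inv_smul _
    have e2 : ((Multiplicative.ofAdd (1 : ℤ))⁻¹ • q.1 = p.1) ↔ (q.1 = Multiplicative.ofAdd (1 : ℤ) • p.1) :=
      inv_smul_eq_iff
    simp only [e1, e2]
    push_cast
    split_ifs <;> ring
  rw [Finset.sum_congr rfl fun q _ => h1 q]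
  rw [Fintype.sum_prod_type]
  simp only [Finset.univ_unique, Finset.sum_singleton, Finset.sum_sub_distrib, Finset.sum_ite_eq', Finset.mem_univ,
    if_true]
  rw [ee_smul, ee_smul, toAdd_inv, toAdd_ofAdd]
  push_cast
  ring

open Classical in
/-- the torsion element -/
noncomputable def uu (N : ℕ) : (Multiplicative ℤ ⧸ sbg N) × Fin 1 → ℤ := fun p =>
  (if ee N p.1 = -1 then 1 else 0) - (if ee N p.1 = 0 then 1 else 0)

theorem phi_uu (N : ℕ) [Fintype (Multiplicative ℤ ⧸ sbg N)] : phi N (uu N) = -1 := by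
  classical
  change ∑ q, ((uu N q : ℤ) : ZMod N) * ee N q.1 = -1
  have h1 : ∀ q : (Multiplicative ℤ ⧸ sbg N) × Fin 1, ((uu N q : ℤ) : ZMod N) * ee N q.1 =
      (if q.1 = (ee N).symm (-1) then ee N q.1 else 0) := by
    intro q
    have e1 : (q.1 = (ee N).symm (-1)) ↔ ee N q.1 = -1 := (Equiv.eq_symm_apply _)
    simp only [e1, uu]
    push_cast
    by_cases h : ee N q.1 = 0
    · rw [h]; simp
    · rw [if_neg h]
      split_ifs <;> ring
  rw [Finset.sum_congr rfl fun q _ => h1 q, Fintype.sum_prod_type]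
  simp only [Finset.univ_unique, Finset.sum_singleton, Finset.sum_ite_eq', Finset.mem_univ, if_true,
    Equiv.apply_symm_apply]

theorem vl_reg (N : ℕ) [NeZero N] [Fintype (Multiplicative ℤ ⧸ sbg N)] :
    vl N ᵥ* reg (Multiplicative ℤ ⧸ sbg N) cyc = (N : ℤ) • uu N := by
  classical
  ext q
  rw [Matrix.vecMul, dotProduct]
  have h1 : ∀ p : (Multiplicative ℤ ⧸ sbg N) × Fin 1,
      vl N p * reg (Multiplicative ℤ ⧸ sbg N) cyc p q =
      (if q.1 = p.1 then 2 * vl N p else 0) -
        (if Multiplicative.ofAdd (1 : ℤ) • q.1 = p.1 then vl N p else 0) -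
        (if (Multiplicative.ofAdd (1 : ℤ))⁻¹ • q.1 = p.1 then vl N p else 0) := by
    intro p
    rw [reg_cyc]
    split_ifs <;> ring
  rw [Finset.sum_congr rfl fun q _ => h1 q, Fintype.sum_prod_type]
  simp only [Finset.univ_unique, Finset.sum_singleton, Finset.sum_sub_distrib, Finset.sum_ite_eq, Finset.mem_univ,
    if_true]
  rw [Pi.smul_apply, smul_eq_mul]
  have h2 := val_second N (ee N q.1)
  unfold vl uu
  rw [ee_smul, ee_smul, toAdd_inv, toAdd_ofAdd]
  push_cast
  rw [← h2, add_comm (1 : ZMod N), neg_add_eq_sub]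

theorem t_cyc : Pool.Agent.D0H83.AC.S_cyc := by
  intro N hN _
  have : NeZero N := ⟨by omega⟩
  refine ⟨?_, ?_, ?_⟩
  · set L := Submodule.span ℤ (Set.range (reg (Multiplicative ℤ ⧸ sbg N) cyc)) with hL
    have hle : L ≤ LinearMap.ker (phi N) := by
      rw [hL, Submodule.span_le]
      rintro _ ⟨p, rfl⟩
      exact phi_row N p
    let Ψ : ((Multiplicative ℤ ⧸ sbg N) × Fin 1 → ℤ) ⧸ L →ₗ[ℤ] ZMod N := L.liftQ (phi N) hle
    have hu : (N : ℤ) • (L.mkQ (uu N)) = 0 := by
      rw [← map_smul, ← vl_reg, Submodule.mkQ_apply, Submodule.Quotient.mk_eq_zero, hL, ← cok_range]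
      exact ⟨vl N, rfl⟩
    have ht : ∀ k : ℤ, k • (L.mkQ (uu N)) ∈ AddCommGroup.torsion
        (((Multiplicative ℤ ⧸ sbg N) × Fin 1 → ℤ) ⧸ L) := by
      intro k
      change IsOfFinAddOrder _
      rw [isOfFinAddOrder_iff_zsmul_eq_zero]
      refine ⟨N, by exact_mod_cast NeZero.ne N, ?_⟩
      rw [smul_comm, hu, smul_zero]
    have hfin : Finite (AddCommGroup.torsion (((Multiplicative ℤ ⧸ sbg N) × Fin 1 → ℤ) ⧸ L)) :=
      Pool.Agent.D0H8.AC.finite_torsion L
    have hs : Function.Surjective (fun x : AddCommGroup.torsion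
        (((Multiplicative ℤ ⧸ sbg N) × Fin 1 → ℤ) ⧸ L) => Ψ (x : ((Multiplicative ℤ ⧸ sbg N) × Fin 1 → ℤ) ⧸ L)) := by
      intro z
      refine ⟨⟨(-(z.val : ℤ)) • (L.mkQ (uu N)), ht _⟩, ?_⟩
      change Ψ ((-(z.val : ℤ)) • (L.mkQ (uu N))) = z
      rw [map_smul]
      change (-(z.val : ℤ)) • (phi N (uu N)) = z
      rw [phi_uu]
      simp
    have h1 := Nat.card_le_card_of_surjective _ hs
    rw [Nat.card_zmod] at h1
    exact h1
  · rw [Fintype.card_congr (ee N), ZMod.card]
  · intro n hn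
    rw [Finset.eq_empty_iff_forall_notMem]
    intro x hx
    classical
    have hx' : ∃ g ∈ ball {Multiplicative.ofAdd (1 : ℤ)} n, g ≠ 1 ∧ g • x = x := by
      simpa [fixd] using hx
    obtain ⟨g, hg, hg1, hgx⟩ := hx'
    apply hg1
    have h1 := ball_le n g hg
    have h2 := ee_smul N g x
    rw [hgx] at h2
    have h3 : ((g.toAdd : ℤ) : ZMod N) = 0 := by
      have := sub_eq_zero.2 h2.symm
      simpa using this
    rw [ZMod.intCast_zmod_eq_zero_iff_dvd] at h3
    have h4 : g.toAdd = 0 := by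
      apply Int.eq_zero_of_abs_lt_dvd h3
      exact lt_of_le_of_lt h1 (by exact_mod_cast hn)
    exact Multiplicative.toAdd.injective h4

end Pool.Agent.D0H82.AC
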