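import Pool.Agent.D0H83.AC.Stm3

set_option autoImplicit false

/-! Module E4 BALL of project AC. -/

namespace Pool.Agent.D0H82.AC

open Matrix Finset Pool.Agent.D0H83.AC

theorem ball_mono {G : Type} [Group G] (S : Set G) {m n : ℕ} (h : m ≤ n) : ball S m ⊆ ball S n := by
  rintro g ⟨l, hl, hl2, hl3⟩
  exact ⟨l, hl.trans h, hl2, hl3⟩

theorem one_mem_ball {G : Type} [Group G] (S : Set G) (n : ℕ) : (1 : G) ∈ ball S n :=
  ⟨[], by simp, by simp, by simp⟩

theorem mul_mem_ball {G : Type} [Group G] {S : Set G} {m n : ℕ} {g h : G} (hg : g ∈ ball S m)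
    (hh : h ∈ ball S n) : g * h ∈ ball S (m + n) := by
  obtain ⟨l, hl, hl2, rfl⟩ := hg
  obtain ⟨l', hl', hl2', rfl⟩ := hh
  refine ⟨l ++ l', by rw [List.length_append]; omega, ?_, List.prod_append⟩
  intro s hs
  rcases List.mem_append.1 hs with hs | hs
  · exact hl2 s hs
  · exact hl2' s hs

theorem inv_mem_ball {G : Type} [Group G] {S : Set G} {m : ℕ} {g : G} (hg : g ∈ ball S m) :
    g⁻¹ ∈ ball S m := by
  obtain ⟨l, hl, hl2, rfl⟩ := hg
  refine ⟨(l.map (fun x => x⁻¹)).reverse, by simpa using hl, ?_, (List.prod_inv_reverse l).symm⟩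
  intro s hs
  rw [List.mem_reverse, List.mem_map] at hs
  obtain ⟨t, ht, rfl⟩ := hs
  rw [inv_inv]
  exact (hl2 t ht).symm

theorem ball_ball {G : Type} [Group G] {S T : Set G} {a : ℕ} (hT : T ⊆ ball S a) (n : ℕ) :
    ball T n ⊆ ball S (a * n) := by
  rintro g ⟨l, hl, hl2, rfl⟩
  have key : ∀ l : List G, (∀ s ∈ l, s ∈ T ∨ s⁻¹ ∈ T) → l.prod ∈ ball S (a * l.length) := by
    intro l
    induction l with
    | nil =>
      intro _
      exact one_mem_ball S _
    | cons x l ih =>
      intro h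
      have h1 : x ∈ ball S a := by
        rcases h x (by simp) with h2 | h2
        · exact hT h2
        · have := inv_mem_ball (hT h2)
          rwa [inv_inv] at this
      have h3 := mul_mem_ball h1 (ih fun s hs => h s (by simp [hs]))
      rw [List.prod_cons, List.length_cons]
      exact ball_mono S (by ring_nf; exact le_refl _) h3
  exact ball_mono S (Nat.mul_le_mul_left a hl) (key l hl2)

theorem closure_ball {G : Type} [Group G] (S : Set G) (g : G) (hg : g ∈ Subgroup.closure S) :
    ∃ n, g ∈ ball S n := by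
  induction hg using Subgroup.closure_induction with
  | mem x hx => exact ⟨1, [x], by simp, by simpa using Or.inl hx, by simp⟩
  | one => exact ⟨0, one_mem_ball S 0⟩
  | mul x y _ _ hx hy =>
    obtain ⟨m, hm⟩ := hx
    obtain ⟨n, hn⟩ := hy
    exact ⟨m + n, mul_mem_ball hm hn⟩
  | inv x _ hx =>
    obtain ⟨m, hm⟩ := hx
    exact ⟨m, inv_mem_ball hm⟩

theorem supp_pow {G : Type} [Group G] (r : ℕ) (S : Set G)
    (B : Matrix (Fin r) (Fin r) (MonoidAlgebra ℤ G)) (a : ℕ)
    (hB : ∀ i j, ∀ g ∈ (B i j).coeff.support, g ∈ ball S a) (k : ℕ) :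
    ∀ i j, ∀ g ∈ ((B ^ k) i j).coeff.support, g ∈ ball S (a * k) := by
  classical
  induction k with
  | zero =>
    intro i j g hg
    rw [pow_zero, Matrix.one_apply] at hg
    split_ifs at hg with h
    · by_cases h1 : g = 1
      · rw [h1]
        exact one_mem_ball S _
      · exfalso
        rw [Finsupp.mem_support_iff, MonoidAlgebra.one_def] at hg
        apply hg
        simp [Ne.symm h1]
    · simp at hg
  | succ k ih =>
    intro i j g hg
    rw [pow_succ, Matrix.mul_apply, MonoidAlgebra.coeff_sum] at hg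
    have h1 := Finsupp.support_finsetSum hg
    rw [Finset.mem_biUnion] at h1
    obtain ⟨l, -, hl⟩ := h1
    have h2 := MonoidAlgebra.support_coeff_mul_subset _ _ hl
    rw [Finset.mem_mul] at h2
    obtain ⟨x, hx, y, hy, rfl⟩ := h2
    have h3 := mul_mem_ball (ih i l x hx) (hB l j y hy)
    exact ball_mono S (by ring_nf; exact le_refl _) h3

theorem t_ball : S_ball := by
  refine ⟨fun G _ S m n h => ball_mono S h, fun G _ S m n g h hg hh => ⟨mul_mem_ball hg hh, inv_mem_ball hg⟩,
    ?_, fun G _ S T a n hT => ball_ball hT n, fun G _ r S B a hB k i j => supp_pow r S B a hB k i j⟩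
  intro G _ S F hF
  classical
  have h1 : ∀ g : G, ∃ n, g ∈ F → g ∈ ball S n := by
    intro g
    by_cases h : g ∈ F
    · obtain ⟨n, hn⟩ := closure_ball S g (hF h)
      exact ⟨n, fun _ => hn⟩
    · exact ⟨0, fun h' => absurd h' h⟩
  choose f hf using h1
  refine ⟨F.sup f + 1, by omega, fun g hg => ball_mono S ?_ (hf g hg)⟩
  have := Finset.le_sup (f := f) (show g ∈ F from hg)
  omega

end Pool.Agent.D0H82.AC
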