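import Pool.Agent.D0H83.AC.Stm3

set_option autoImplicit false

/-! Module E6 CONG of project AC: congruence subgroups have no short fixed words. -/

namespace Pool.Agent.D0H82.AC

open Matrix Finset Pool.Agent.D0H83.AC

theorem entries_le {G : Type} [Group G] {d : ℕ} (φ : G →* GL (Fin d) ℤ) (S : Set G) (b : ℕ)
    (hb : ∀ s, (s ∈ S ∨ s⁻¹ ∈ S) → ∀ i j, |((φ s : GL (Fin d) ℤ) : Matrix (Fin d) (Fin d) ℤ) i j| ≤ b)
    {n : ℕ} {g : G} (hg : g ∈ ball S n) (i j : Fin d) :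
    |((φ g : GL (Fin d) ℤ) : Matrix (Fin d) (Fin d) ℤ) i j| ≤ ((d * b + 1) ^ n : ℕ) := by
  obtain ⟨l, hl, hl2, rfl⟩ := hg
  have key : ∀ l : List G, (∀ s ∈ l, s ∈ S ∨ s⁻¹ ∈ S) → ∀ i j,
      |((φ l.prod : GL (Fin d) ℤ) : Matrix (Fin d) (Fin d) ℤ) i j| ≤ ((d * b + 1) ^ l.length : ℕ) := by
    intro l
    induction l with
    | nil =>
      intro _ i j
      simp only [List.prod_nil, map_one, Units.val_one, List.length_nil, pow_zero, Matrix.one_apply]
      split_ifs <;> simp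
    | cons x l ih =>
      intro h i j
      have h1 := hb x (h x (by simp))
      have h2 := ih fun s hs => h s (by simp [hs])
      rw [List.prod_cons, map_mul, Units.val_mul, Matrix.mul_apply, List.length_cons]
      refine (Finset.abs_sum_le_sum_abs _ _).trans ?_
      calc ∑ k, |((φ x : GL (Fin d) ℤ) : Matrix (Fin d) (Fin d) ℤ) i k *
            ((φ l.prod : GL (Fin d) ℤ) : Matrix (Fin d) (Fin d) ℤ) k j| ≤
            ∑ _k : Fin d, (b : ℤ) * ((d * b + 1) ^ l.length : ℕ) := by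
            refine Finset.sum_le_sum fun k _ => ?_
            rw [abs_mul]
            exact mul_le_mul (h1 i k) (h2 k j) (abs_nonneg _) (by positivity)
        _ = (d * b : ℤ) * ((d * b + 1) ^ l.length : ℕ) := by
            rw [Finset.sum_const, Finset.card_univ, Fintype.card_fin, nsmul_eq_mul]
            ring
        _ ≤ _ := by
            push_cast
            rw [pow_succ]
            have h3 : (0 : ℤ) ≤ (d * b + 1) ^ l.length := by positivity
            nlinarith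
  refine (key l hl2 i j).trans ?_
  exact_mod_cast Nat.pow_le_pow_right (by omega) hl

theorem t_cong : S_cong := by
  intro G _ d φ S hφ
  classical
  -- the bound for the letters
  obtain ⟨b, hb⟩ : ∃ b : ℕ, ∀ s, (s ∈ (S : Set G) ∨ s⁻¹ ∈ (S : Set G)) → ∀ i j,
      |((φ s : GL (Fin d) ℤ) : Matrix (Fin d) (Fin d) ℤ) i j| ≤ b := by
    refine ⟨∑ s ∈ S ∪ S.image (fun x => x⁻¹), ∑ i, ∑ j,
      (((φ s : GL (Fin d) ℤ) : Matrix (Fin d) (Fin d) ℤ) i j).natAbs, fun s hs i j => ?_⟩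
    have hs' : s ∈ S ∪ S.image (fun x => x⁻¹) := by
      rw [Finset.mem_union, Finset.mem_image]
      rcases hs with hs | hs
      · exact Or.inl hs
      · exact Or.inr ⟨s⁻¹, hs, inv_inv s⟩
    rw [Int.abs_eq_natAbs]
    have h1 : (((φ s : GL (Fin d) ℤ) : Matrix (Fin d) (Fin d) ℤ) i j).natAbs ≤
        ∑ j, (((φ s : GL (Fin d) ℤ) : Matrix (Fin d) (Fin d) ℤ) i j).natAbs :=
      Finset.single_le_sum (f := fun j => (((φ s : GL (Fin d) ℤ) : Matrix (Fin d) (Fin d) ℤ) i j).natAbs)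
        (fun _ _ => Nat.zero_le _) (Finset.mem_univ j)
    have h2 : ∑ j, (((φ s : GL (Fin d) ℤ) : Matrix (Fin d) (Fin d) ℤ) i j).natAbs ≤
        ∑ i, ∑ j, (((φ s : GL (Fin d) ℤ) : Matrix (Fin d) (Fin d) ℤ) i j).natAbs :=
      Finset.single_le_sum (f := fun i => ∑ j, (((φ s : GL (Fin d) ℤ) : Matrix (Fin d) (Fin d) ℤ) i j).natAbs)
        (fun _ _ => Nat.zero_le _) (Finset.mem_univ i)
    have h3 : ∑ i, ∑ j, (((φ s : GL (Fin d) ℤ) : Matrix (Fin d) (Fin d) ℤ) i j).natAbs ≤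
        ∑ s ∈ S ∪ S.image (fun x => x⁻¹), ∑ i, ∑ j,
          (((φ s : GL (Fin d) ℤ) : Matrix (Fin d) (Fin d) ℤ) i j).natAbs :=
      Finset.single_le_sum (f := fun s => ∑ i, ∑ j,
        (((φ s : GL (Fin d) ℤ) : Matrix (Fin d) (Fin d) ℤ) i j).natAbs) (fun _ _ => Nat.zero_le _) hs'
    exact_mod_cast (h1.trans h2).trans h3
  refine ⟨2 * (d * b + 1), by nlinarith [Nat.zero_le (d * b)], ?_⟩
  intro N n hN _
  rw [fixd, Finset.filter_eq_empty_iff]
  rintro x - ⟨g, hg, hg1, hgx⟩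
  -- `g` is in the subgroup
  have hmem : g ∈ cong φ N := by
    induction x using QuotientGroup.induction_on with
    | H h =>
    have h1 : ((g * h : G) : G ⧸ cong φ N) = (h : G ⧸ cong φ N) := hgx
    have h2 : h⁻¹ * (g * h) ∈ cong φ N := QuotientGroup.eq.1 h1.symm
    have h3 : (cong φ N).Normal := MonoidHom.normal_ker _
    have h4 := h3.conj_mem _ h2 h
    have e : h * (h⁻¹ * (g * h)) * h⁻¹ = g := by group
    rwa [e] at h4
  have hn : n ≠ 0 := by
    rintro rfl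
    obtain ⟨l, hl, -, hl3⟩ := hg
    rw [List.length_eq_zero_iff.1 (Nat.le_zero.1 hl)] at hl3
    exact hg1 (by rw [← hl3]; rfl)
  have hmat : ((φ g : GL (Fin d) ℤ) : Matrix (Fin d) (Fin d) ℤ) = 1 := by
    ext i j
    have h1 : (Matrix.GeneralLinearGroup.map (n := Fin d) (Int.castRingHom (ZMod N))) (φ g) = 1 := hmem
    have h2 : ((Matrix.GeneralLinearGroup.map (n := Fin d) (Int.castRingHom (ZMod N)) (φ g) :
        GL (Fin d) (ZMod N)) : Matrix (Fin d) (Fin d) (ZMod N)) i j =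
        (1 : Matrix (Fin d) (Fin d) (ZMod N)) i j := by rw [h1]; rfl
    have h3 : (((((φ g : GL (Fin d) ℤ) : Matrix (Fin d) (Fin d) ℤ) i j -
        (1 : Matrix (Fin d) (Fin d) ℤ) i j : ℤ)) : ZMod N) = 0 := by
      have h4 : ((Matrix.GeneralLinearGroup.map (n := Fin d) (Int.castRingHom (ZMod N)) (φ g) :
          GL (Fin d) (ZMod N)) : Matrix (Fin d) (Fin d) (ZMod N)) i j =
          ((((φ g : GL (Fin d) ℤ) : Matrix (Fin d) (Fin d) ℤ) i j : ℤ) : ZMod N) := rfl
      rw [h4] at h2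
      push_cast
      rw [h2, Matrix.one_apply, Matrix.one_apply]
      split_ifs <;> simp
    rw [ZMod.intCast_zmod_eq_zero_iff_dvd] at h3
    have h5 := entries_le φ (S : Set G) b hb hg i j
    have h6 : |((φ g : GL (Fin d) ℤ) : Matrix (Fin d) (Fin d) ℤ) i j - (1 : Matrix (Fin d) (Fin d) ℤ) i j| <
        (N : ℤ) := by
      have h7 : |(1 : Matrix (Fin d) (Fin d) ℤ) i j| ≤ 1 := by
        rw [Matrix.one_apply]
        split_ifs <;> simp
      have h8 : (d * b + 1) ^ n + 1 ≤ (2 * (d * b + 1)) ^ n := by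
        have h9 : 1 ≤ (d * b + 1) ^ n := Nat.one_le_pow _ _ (by omega)
        have h10 : 2 ≤ 2 ^ n := by
          calc 2 = 2 ^ 1 := rfl
            _ ≤ 2 ^ n := Nat.pow_le_pow_right (by norm_num) (Nat.one_le_iff_ne_zero.2 hn)
        rw [mul_pow]
        nlinarith
      have h11 : (((d * b + 1) ^ n : ℕ) : ℤ) + 1 < N := by exact_mod_cast lt_of_le_of_lt h8 hN
      calc _ ≤ |((φ g : GL (Fin d) ℤ) : Matrix (Fin d) (Fin d) ℤ) i j| +
            |(1 : Matrix (Fin d) (Fin d) ℤ) i j| := abs_sub _ _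
        _ ≤ (((d * b + 1) ^ n : ℕ) : ℤ) + 1 := add_le_add h5 h7
        _ < N := h11
    have h12 := Int.eq_zero_of_abs_lt_dvd h3 h6
    linarith
  apply hg1
  apply hφ
  rw [map_one]
  exact Units.ext hmat

end Pool.Agent.D0H82.AC
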