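import Pool.Agent.D0H83.AC.Stm4

set_option autoImplicit false

/-! Project AC, module E8 SQRT. -/

namespace Pool.Agent.D0H82.AC

open Finset Matrix Pool.Agent.D0H83.AC

theorem inv_pow {N : Type} [Fintype N] [DecidableEq N] (M : Matrix N N ℝ)
    (H : Submodule ℝ (N → ℝ)) (hH : ∀ f ∈ H, f ᵥ* M ∈ H) (k : ℕ) : ∀ f ∈ H, f ᵥ* (M ^ k) ∈ H := by
  induction k with
  | zero => intro f hf; simpa using hf
  | succ k ih =>
    intro f hf
    rw [pow_succ, ← Matrix.vecMul_vecMul]
    exact hH _ (ih f hf)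

theorem inv_aeval {N : Type} [Fintype N] [DecidableEq N] (M : Matrix N N ℝ) (g : Polynomial ℝ)
    (H : Submodule ℝ (N → ℝ)) (hH : ∀ f ∈ H, f ᵥ* M ∈ H) :
    ∀ f ∈ H, f ᵥ* (Polynomial.aeval M g) ∈ H := by
  intro f hf
  have h1 : f ᵥ* (Polynomial.aeval M g) = ∑ i ∈ range (g.natDegree + 1), g.coeff i • (f ᵥ* (M ^ i)) := by
    rw [Polynomial.aeval_eq_sum_range]
    ext q
    simp only [Matrix.vecMul, dotProduct, Finset.sum_apply, Matrix.sum_apply, Matrix.smul_apply, Pi.smul_apply,
      smul_eq_mul, Finset.mul_sum]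
    rw [Finset.sum_comm]
    refine sum_congr rfl fun i _ => sum_congr rfl fun j _ => ?_
    ring
  rw [h1]
  exact Submodule.sum_mem _ fun i _ => Submodule.smul_mem _ _ (inv_pow M H hH i f hf)

theorem t_sqrt : S_sqrt := by
  intro N _ _ M hM hpos
  have hA : M.IsHermitian := by
    rw [Matrix.IsHermitian, Matrix.conjTranspose_eq_transpose_of_trivial]
    exact hM
  have hP : M.PosSemidef := by
    refine Matrix.PosSemidef.of_dotProduct_mulVec_nonneg hA fun x => ?_
    rw [star_trivial, Matrix.dotProduct_mulVec]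
    exact hpos x
  have h1 : ∀ q : Polynomial ℝ, Polynomial.aeval M q = hA.cfc q.eval := by
    intro q
    rw [← hA.cfc_eq]
    exact (cfc_polynomial q M hA).symm
  obtain ⟨g, hg⟩ : ∃ g : Polynomial ℝ, ∀ j, g.eval (hA.eigenvalues j) = Real.sqrt (hA.eigenvalues j) := by
    refine ⟨Lagrange.interpolate (Finset.univ.image hA.eigenvalues) id (fun x => Real.sqrt x), fun j => ?_⟩
    exact Lagrange.eval_interpolate_at_node (fun x => Real.sqrt x) (Set.injOn_id _)
      (Finset.mem_image_of_mem _ (Finset.mem_univ j))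
  refine ⟨Polynomial.aeval M g, ?_, ?_, fun H hH => inv_aeval M g H hH⟩
  · rw [Polynomial.aeval_eq_sum_range, Matrix.transpose_sum]
    refine sum_congr rfl fun i _ => ?_
    rw [Matrix.transpose_smul, Matrix.transpose_pow, hM]
  · rw [← map_mul]
    have h2 : hA.cfc (g * g).eval = hA.cfc (Polynomial.X : Polynomial ℝ).eval := by
      unfold Matrix.IsHermitian.cfc
      congr 2
      ext j
      simp only [Function.comp_apply, Polynomial.eval_mul, Polynomial.eval_X, hg]
      rw [Real.mul_self_sqrt (hP.eigenvalues_nonneg j)]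
    rw [h1, h2, ← h1, Polynomial.aeval_X]

end Pool.Agent.D0H82.AC
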